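import Mathlib
import Pool.Agent.Helper187.HBV.Conv

open MeasureTheory Filter Topology Real

namespace Pool.Agent.Results.MP_7bd4cc_an.HarmonicAEConvergence

/-- The square `[-π, π]²`. -/
def Sq : Set (ℝ × ℝ) := Set.Icc (-π) π ×ˢ Set.Icc (-π) π

/-- `[a k, b k]`, `k = 0, 1, 2, …`, is a sequence of pairwise non-overlapping closed subintervals
of `[lo, hi]`. -/
def NonOverlapping (lo hi : ℝ) (a b : ℕ → ℝ) : Prop :=
  (∀ k, lo ≤ a k ∧ a k ≤ b k ∧ b k ≤ hi) ∧ ∀ i j, i ≠ j → b i ≤ a j ∨ b j ≤ a i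

/-- `g` is of harmonic bounded variation on `[lo, hi]`. (Index `k` here is `k + 1` in the text.) -/
def HBVOn (lo hi : ℝ) (g : ℝ → ℝ) : Prop :=
  ∀ a b : ℕ → ℝ, NonOverlapping lo hi a b → Summable (fun k : ℕ => |g (b k) - g (a k)| / (k + 1))

/-- The total harmonic variation of `g` on `[lo, hi]`, as an extended nonnegative real. -/
noncomputable def harmonicVariation (lo hi : ℝ) (g : ℝ → ℝ) : ENNReal :=
  ⨆ (a : ℕ → ℝ) (b : ℕ → ℝ) (_ : NonOverlapping lo hi a b),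
    ∑' k : ℕ, ENNReal.ofReal (|g (b k) - g (a k)| / (k + 1))

/-- The class `V^1_{H,1}` on the square. -/
structure ClassVH (f : ℝ × ℝ → ℝ) : Prop where
  integrable : IntegrableOn f Sq
  horizontal : ∃ f₁ : ℝ × ℝ → ℝ, f₁ =ᵐ[volume.restrict Sq] f ∧
    (∀ᵐ y ∂(volume.restrict (Set.Icc (-π) π)), HBVOn (-π) π (fun x => f₁ (x, y))) ∧
    AEMeasurable (fun y => harmonicVariation (-π) π (fun x => f₁ (x, y)))
      (volume.restrict (Set.Icc (-π) π)) ∧
    ∫⁻ y in Set.Icc (-π) π, harmonicVariation (-π) π (fun x => f₁ (x, y)) < ⊤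
  vertical : ∃ f₂ : ℝ × ℝ → ℝ, f₂ =ᵐ[volume.restrict Sq] f ∧
    (∀ᵐ x ∂(volume.restrict (Set.Icc (-π) π)), HBVOn (-π) π (fun y => f₂ (x, y))) ∧
    AEMeasurable (fun x => harmonicVariation (-π) π (fun y => f₂ (x, y)))
      (volume.restrict (Set.Icc (-π) π)) ∧
    ∫⁻ x in Set.Icc (-π) π, harmonicVariation (-π) π (fun y => f₂ (x, y)) < ⊤

/-- Double Fourier coefficients. -/
noncomputable def fourierCoeff2 (f : ℝ × ℝ → ℝ) (j k : ℤ) : ℂ :=
  (4 * (π : ℂ) ^ 2)⁻¹ * ∫ q in Sq, (f q : ℂ) * Complex.exp (-(Complex.I * (j * q.1 + k * q.2)))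

/-- Rectangular partial sums. -/
noncomputable def rectSum (f : ℝ × ℝ → ℝ) (M N : ℕ) (p : ℝ × ℝ) : ℂ :=
  ∑ j ∈ Finset.Icc (-(M : ℤ)) M, ∑ k ∈ Finset.Icc (-(N : ℤ)) N,
    fourierCoeff2 f j k * Complex.exp (Complex.I * (j * p.1 + k * p.2))

open Pool.Agent.Helper187.HBV in
theorem coeff_eq (f : ℝ × ℝ → ℝ) (j k : ℤ) : fourierCoeff2 f j k
    = ∫ z, (f z : ℂ) * Complex.exp (-(Complex.I * (j * z.1 + k * z.2))) ∂(nu.prod nu) := by
  rw [nu2_eq, integral_smul_measure]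
  unfold fourierCoeff2
  have h1 : (ENNReal.ofReal (1 / (2 * π)) * ENNReal.ofReal (1 / (2 * π))).toReal = (4 * π ^ 2)⁻¹ := by
    have := Real.pi_pos
    rw [ENNReal.toReal_mul, ENNReal.toReal_ofReal (by positivity)]
    field_simp
    ring
  rw [h1, Complex.real_smul]
  congr 1
  push_cast
  ring

open Pool.Agent.Helper187.HBV in
/-- For every `f` in `V^1_{H,1}` the rectangular partial sums of the double Fourier series converge
to `f` almost everywhere on the square, as `M, N → ∞` independently. -/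
theorem result (f : ℝ × ℝ → ℝ) (hf : ClassVH f) :
    ∀ᵐ p ∂(volume.restrict Sq),
      Tendsto (fun MN : ℕ × ℕ => rectSum f MN.1 MN.2 p) (atTop ×ˢ atTop) (𝓝 (f p : ℂ)) := by
  have hint : Integrable f (nu.prod nu) := int_nu2.mpr hf.integrable
  obtain ⟨f', hgood, hff'⟩ := exists_good hint
  have htrans : ∀ {V : ℝ → ENNReal}, AEMeasurable V (volume.restrict (Set.Icc (-π) π)) →
      ∫⁻ y in Set.Icc (-π) π, V y < ⊤ → AEMeasurable V nu ∧ ∫⁻ y, V y ∂nu ≠ ⊤ := by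
    intro V h1 h2
    rw [nu_eq]
    refine ⟨h1.smul_measure _, ?_⟩
    rw [lintegral_smul_measure]
    exact ENNReal.mul_ne_top ENNReal.ofReal_ne_top h2.ne
  -- direction 1
  obtain ⟨f₁, h11, _, h13, h14⟩ := hf.horizontal
  have hA : S0.Dir f' (AA f') := by
    obtain ⟨m1, m2⟩ := htrans h13 h14
    refine dir_of hgood (f₁ := f₁) ?_ m1 m2 ?_
    · have h11' : ∀ᵐ p ∂(nu.prod nu), f₁ p = f p := ae_nu2.mpr h11
      filter_upwards [h11', hff'] with p e1 e2
      rw [e1, e2]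
    · intro y a b hab hno
      unfold harmonicVariation
      exact le_iSup₂_of_le a b (le_iSup_of_le ⟨hab, hno⟩ le_rfl)
  -- direction 2
  obtain ⟨f₂, h21, _, h23, h24⟩ := hf.vertical
  have hB : S0.Dir (sw f') (AA (sw f')) := by
    obtain ⟨m1, m2⟩ := htrans h23 h24
    refine dir_of hgood.sw (f₁ := sw f₂) ?_ m1 m2 ?_
    · have h21' : ∀ᵐ p ∂(nu.prod nu), f₂ p = f p := ae_nu2.mpr h21
      refine FS.ae_swap (P := fun p => f₂ p = f' p) ?_
      filter_upwards [h21', hff'] with p e1 e2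
      rw [e1, e2]
    · intro y a b hab hno
      unfold harmonicVariation
      exact le_iSup₂_of_le a b (le_iSup_of_le ⟨hab, hno⟩ le_rfl)
  have hmain := FS.main (S := S0) S0_inc S0_cov hgood hA hB
  have h : ∀ᵐ p ∂(nu.prod nu),
      Tendsto (fun MN : ℕ × ℕ => rectSum f MN.1 MN.2 p) (atTop ×ˢ atTop) (𝓝 (f p : ℂ)) := by
    filter_upwards [hmain, hff'] with p hp hfp
    rw [prod_atTop_atTop_eq]
    have h2 : ∀ MN : ℕ × ℕ, rectSum f MN.1 MN.2 p = ((S0.SMN MN.1 MN.2 f' p : ℝ) : ℂ) := by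
      intro MN
      rw [SMN_eq hgood, ← rect_eq hgood.int]
      unfold rectSum
      refine Finset.sum_congr rfl (fun j _ => Finset.sum_congr rfl (fun k _ => ?_))
      rw [coeff_eq]
      congr 1
      refine integral_congr_ae ?_
      filter_upwards [hff'] with z hz
      rw [hz]
    have h3 : (fun MN : ℕ × ℕ => rectSum f MN.1 MN.2 p)
        = fun MN : ℕ × ℕ => ((S0.SMN MN.1 MN.2 f' p : ℝ) : ℂ) := funext h2
    rw [h3, ← hfp]
    exact (Complex.continuous_ofReal.tendsto _).comp hp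
  exact ae_nu2.mp h

end Pool.Agent.Results.MP_7bd4cc_an.HarmonicAEConvergence
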